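import Pool.Agent.Helper79.GS.St5

/-! # GS MODULE EA -/

set_option autoImplicit false

namespace Pool.Agent.Helper26.GS

open Pool.Agent.Helper79.GS Pool.Agent.Helper19.SK Pool.Agent.Helper73.DC Finset

private theorem ei {p : List (Fin 5) → (ℕ → ℕ) → Prop} {inst : ∀ w v, Decidable (p w v)} {F G : VF (Fin 5)}
    (hp : E2P p) (hF : E2 F) (hG : E2 G) : E2 (fun w v => @ite ℕ (p w v) (inst w v) (F w v) (G w v)) := by
  have h := e_ite hp hF hG
  have e : (fun w v => @ite ℕ (p w v) (inst w v) (F w v) (G w v)) =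
      (fun w v => @ite ℕ (p w v) (Classical.propDecidable _) (F w v) (G w v)) := by
    funext w v
    congr
  rw [e]
  exact h

private theorem sh2 {F : VF (Fin 5)} (hF : E2 F) : E2 (fun w v => F w (fun i => v (i + 2))) := by
  have h := e_sh (e_sh hF)
  exact h

private theorem pm (A B Q : VF (Fin 5)) (hA : E2 A) (hB : E2 B) (hQ : E2 Q) :
    E2 (fun w v => A w v ^ B w v % (Q w v + 1)) := by
  have key : ∀ w v y, (Nat.rec (1 % (Q w v + 1)) (fun _ r => r * A w v % (Q w v + 1)) y : ℕ) =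
      A w v ^ y % (Q w v + 1) := by
    intro w v y
    induction y with
    | zero => simp
    | succ y ih =>
      show (Nat.rec (1 % (Q w v + 1)) (fun _ r => r * A w v % (Q w v + 1)) y : ℕ) * A w v % (Q w v + 1) = _
      rw [ih, pow_succ, Nat.mod_mul_mod]
  have h := e_rec (α := Fin 5) (F := fun w v => 1 % (Q w v + 1)) (H := B) (B := Q)
    (G := fun w _ r v => r * A w v % (Q w v + 1))
    (e_mod (e_con 1) (e_add hQ (e_con 1)))
    (e_mod (e_mul (e_get 1) (sh2 hA)) (e_add (sh2 hQ) (e_con 1))) hB hQ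
    (by
      intro w v y _
      rw [key]
      exact Nat.lt_succ_iff.1 (Nat.mod_lt _ (Nat.succ_pos _)))
  have e : (fun w v => A w v ^ B w v % (Q w v + 1)) =
      fun w v => (Nat.rec (1 % (Q w v + 1)) (fun _ r => r * A w v % (Q w v + 1)) (B w v) : ℕ) := by
    funext w v
    rw [key]
  rw [e]
  exact h

private theorem p2 {N E : VF (Fin 5)} (hN : E2 N) (hE : E2 E) : E2 (fun w v => pw (N w v) 2 (E w v)) :=
  e_pw hN (e_con 2) hE

private theorem mc {L : VF (Fin 5)} (hL : E2 L) (c : ℕ) : E2 (fun w v => c * L w v) := e_mul (e_con c) hL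

private theorem ac {L : VF (Fin 5)} (hL : E2 L) (c : ℕ) : E2 (fun w v => L w v + c) := e_add hL (e_con c)

private theorem wt (N L X I J : VF (Fin 5)) (hN : E2 N) (hL : E2 L) (hX : E2 X) (hI : E2 I) (hJ : E2 J) :
    E2 (fun w v => wtN (N w v) (L w v) (X w v) (I w v) (J w v)) := by
  unfold wtN
  refine e_sum (T := fun w r v => (pw (N w v) 2 (L w v + 3)) ^ (I w v * pw (N w v) 2 (L w v) + J w v) %
      (dg (pw (N w v) 2 (7 * L w v + 7)) (X w v) r + 1) * pw (N w v) 2 ((8 * L w v + 8) * (L w v - 1 - r))) ?_ hL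
  have sN := e_sh hN
  have sL := e_sh hL
  have sX := e_sh hX
  have sI := e_sh hI
  have sJ := e_sh hJ
  exact e_mul (pm _ _ _ (p2 sN (ac sL 3)) (e_add (e_mul sI (p2 sN sL)) sJ)
    (e_dg (p2 sN (ac (mc sL 7) 7)) sX (e_get 0)))
    (p2 sN (e_mul (ac (mc sL 8) 8) (e_sub (e_sub sL (e_con 1)) (e_get 0))))

private theorem qb (N L : VF (Fin 5)) (hN : E2 N) (hL : E2 L) : E2 (fun w v => QbN (N w v) (L w v)) := by
  unfold QbN
  exact p2 hN (ac (e_add (e_mul (e_con 8) (e_powc hL 2)) (mc hL 9)) 2)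

private theorem xb (N L : VF (Fin 5)) (hN : E2 N) (hL : E2 L) : E2 (fun w v => XbN (N w v) (L w v)) := by
  unfold XbN
  exact p2 hN (e_add (e_mul (ac (mc hL 7) 7) hL)
    (e_mul (e_con 2) (ac (e_add (e_mul (e_con 8) (e_powc hL 2)) (mc hL 9)) 2)))

private theorem xqe (N L X : VF (Fin 5)) (hN : E2 N) (hL : E2 L) (hX : E2 X) :
    E2 (fun w v => xqN (N w v) (L w v) (X w v)) := by
  unfold xqN
  exact e_mod (e_div hX (p2 hN (e_mul (ac (mc hL 7) 7) hL))) (qb N L hN hL)

private theorem xxe (N L X : VF (Fin 5)) (hN : E2 N) (hL : E2 L) (hX : E2 X) :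
    E2 (fun w v => xxN (N w v) (L w v) (X w v)) := by
  unfold xxN
  exact e_mod (e_div hX (p2 hN (e_add (e_mul (ac (mc hL 7) 7) hL)
    (ac (e_add (e_mul (e_con 8) (e_powc hL 2)) (mc hL 9)) 2)))) (qb N L hN hL)

private theorem ev' (N L X I J : VF (Fin 5)) (hN : E2 N) (hL : E2 L) (hX : E2 X) (hI : E2 I) (hJ : E2 J) :
    E2 (fun w v => evN (N w v) (L w v) (X w v) (I w v) (J w v)) := by
  unfold evN
  exact pm _ _ _ (xxe N L X hN hL hX) (wt N L X I J hN hL hX hI hJ) (xqe N L X hN hL hX)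

private theorem kk (n S T : VF (Fin 5)) (hn : E2 n) (hS : E2 S) (hT : E2 T) :
    E2 (fun w v => trK (n w v) (S w v) (T w v)) := by
  have n1 : E2 (fun w v => n w v + 1) := ac hn 1
  have n2 : E2 (fun w v => n w v + 2) := ac hn 2
  have sm := e_mod hS n2
  have sd := e_div hS n2
  have tm := e_mod hT n2
  have td := e_div hT n2
  have sd1 : E2 (fun w v => S w v / (n w v + 2) + 1) := ac sd 1
  have a1 := e_and (e_eq td sd1) (e_eq tm hn)
  have a2 := e_and (e_eq td sd) (e_and (e_lt sd tm) (e_lt tm hn))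
  have a3 := e_and (e_eq td sd) (e_eq tm n1)
  have b1 := e_and (e_eq sm hn) (e_lt sd hn)
  have b2 := e_and (e_lt sm hn) (e_lt sd sm)
  have b3 := e_and (e_eq sm n1) (e_lt sd hn)
  unfold trK
  exact ei b1 (ei a1 (e_con 1) (ei a2 (e_con 2) (ei a3 (e_con 2) (e_con 0))))
    (ei b2 (ei a2 (e_con 3) (ei a3 (e_con 3) (e_con 0)))
      (ei b3 (ei a1 (e_con 1) (e_con 0)) (e_con 0)))

theorem hEA : StEA := by
  refine ⟨pm, ?_, ?_, ?_, ?_⟩
  · intro N L X I J hN hL hX hI hJ
    exact ⟨wt N L X I J hN hL hX hI hJ, ev' N L X I J hN hL hX hI hJ⟩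
  · intro N L X hN hL hX
    exact ⟨qb N L hN hL, xb N L hN hL, xqe N L X hN hL hX, xxe N L X hN hL hX⟩
  · intro n S T hn hS hT
    have n1 : E2 (fun w v => n w v + 1) := ac hn 1
    have n2 : E2 (fun w v => n w v + 2) := ac hn 2
    have sm := e_mod hS n2
    have sd := e_div hS n2
    have tm := e_mod hT n2
    refine ⟨kk n S T hn hS hT, ?_, ?_⟩
    · unfold trI
      exact ei (e_eq sm hn) sd sm
    · unfold trJ
      exact ei (e_eq tm n1) sd tm
  · intro B M I J hB hM hI hJ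
    have b2 : E2 (fun w v => 2 * B w v) := mc hB 2
    have d := e_sub b2 hM
    unfold padS
    exact e_or (e_and (e_lt hI hB) (e_and (e_le hB hJ) (e_lt hJ d)))
      (e_or (e_and (e_le hB hI) (e_and (e_lt hI d) (e_lt hJ hB))) (e_and (e_le d hI) (e_eq hJ hI)))

end Pool.Agent.Helper26.GS
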