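import Pool.Agent.Helper79.GS.St1

/-! # GS MODULE XLC -/

set_option autoImplicit false

namespace Pool.Agent.Helper26.GS

open Pool.Agent.Helper79.GS Pool.Agent.Helper19.SK

/-- the signed score -/
private def sg {P : Type} (A : Arena P) (c : Bool) (x : P) : ℤ := if c = true then -A.s x else A.s x

private theorem sg_congr {P : Type} (A : Arena P) (c : Bool) {x y : P} (h : A.s x = A.s y) :
    sg A c x = sg A c y := by
  unfold sg
  rw [h]

private theorem ahead_congr {P : Type} (A : Arena P) (c : Bool) {x y : P} (h : A.s x = A.s y) :
    ahead A c x ↔ ahead A c y := by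
  unfold ahead
  rw [h]

private theorem mg_congr {P : Type} (A : Arena P) (c : Bool) {x y : P} (h : A.s x = A.s y) :
    mg A c x = mg A c y := by
  unfold mg
  rw [h]

private theorem core (hLVL : StLVL) {P : Type} (A : Arena P) (hS : Sc A) (EX : Bool → P → Prop) (V V' : Set P)
    (c : Bool) : ∀ (k : ℕ) (u : P), ¬ ahead A c u → mg A c u / 4 + 1 = k →
      (∀ x, x ≠ u → sg A c x ≤ sg A c u → (x ∈ V ↔ x ∈ V')) →
      (Xk A EX V c k u ↔ Xk A EX V' c k u) := by
  intro k
  induction k with
  | zero =>
    intro u _ h
    omega
  | succ k ih =>
    intro u hu hk hV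
    have hG : Gr A EX V c (Xk A EX V c k) u = Gr A EX V' c (Xk A EX V' c k) u := by
      funext y x
      apply propext
      unfold Gr
      by_cases hs : A.s y = A.s u
      · by_cases hr : rv A c y x
        · obtain ⟨h1, h2, h3, h4, h5, h6, h7, h8⟩ := hLVL P A hS c y x hr
          have hsy : sg A c y = sg A c u := sg_congr A c hs
          have hsx : sg A c x = sg A c u - 4 := by
            rw [← hsy]
            unfold sg
            rcases h8 with ⟨hc, h8⟩ | ⟨hc, h8⟩
            · simp only [hc, if_true]
              omega
            · simp only [hc, Bool.false_eq_true, if_false]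
              omega
          have hxu : x ≠ u := by
            intro hxu
            rw [hxu] at hsx
            omega
          have hx : x ∈ V ↔ x ∈ V' := hV x hxu (by omega)
          have hy : (y = u ∨ (y ∉ V ∧ ¬ EX c y)) ↔ (y = u ∨ (y ∉ V' ∧ ¬ EX c y)) := by
            by_cases hyu : y = u
            · simp [hyu]
            · have := hV y hyu hsy.le
              rw [this]
          have hX : (¬ ahead A c x → Xk A EX V c k x) ↔ (¬ ahead A c x → Xk A EX V' c k x) := by
            refine forall_congr' fun hax => ?_
            have hay : ¬ ahead A c y := fun h => hu ((ahead_congr A c hs).1 h)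
            have h9 := h1 hay hax
            have h10 := mg_congr A c hs
            refine ih x hax (by omega) ?_
            intro z hz hzx
            refine hV z ?_ (by omega)
            intro hzu
            rw [hzu] at hzx
            omega
          rw [hy, hx, hX]
        · simp [hr]
      · simp [hs]
    show (EX c u ∨ Ess (Gr A EX V c (Xk A EX V c k) u) u) ↔ (EX c u ∨ Ess (Gr A EX V' c (Xk A EX V' c k) u) u)
    rw [hG]

theorem hXLC (hLVL : StLVL) : StXLC := by
  intro P A hS EX V V' c u hu hV
  refine core hLVL A hS EX V V' c _ u hu rfl fun x hx hs => hV x hx ?_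
  unfold sg at hs
  by_cases hc : c = true
  · rw [if_pos hc, if_pos hc] at hs
    rw [if_pos hc]
    exact hs
  · rw [if_neg hc, if_neg hc] at hs
    rw [if_neg hc]
    exact hs

end Pool.Agent.Helper26.GS
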